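import Pool.Agent.H85.KS2.Targets

set_option autoImplicit false
open Pool.Agent.H98.KS Pool.Agent.H85.KS2
namespace Pool.Agent.H37.KS2

theorem ks2_WS2 : T_WS2 := by
  intro L hL
  refine ⟨?_, ?_⟩
  · intro j hj
    rw [Finset.mem_range] at hj
    unfold ww
    split_ifs with h0
    · norm_num
    · have h1 : (j : ℝ) + 1 ≤ 16 * (L : ℝ) + 1 := by exact_mod_cast hj
      have h2 : (0 : ℝ) < 16 * (L : ℝ) + 1 - j := by linarith
      positivity
  · have hH : ∑ i ∈ Finset.range (16 * L), (1 : ℝ) / ((i : ℝ) + 1) ≤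
        1 + Real.log (16 * (L : ℝ) + 1) := by
      have h1 := harmonic_le_one_add_log (16 * L)
      unfold harmonic at h1
      push_cast at h1
      have h2 : Real.log (16 * (L : ℝ)) ≤ Real.log (16 * (L : ℝ) + 1) := by
        apply Real.log_le_log
        · have : (1 : ℝ) ≤ L := by exact_mod_cast hL
          linarith
        · linarith
      have h3 : ∑ i ∈ Finset.range (16 * L), (1 : ℝ) / ((i : ℝ) + 1) =
          ∑ i ∈ Finset.range (16 * L), ((i : ℝ) + 1)⁻¹ :=
        Finset.sum_congr rfl fun i _ => one_div _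
      rw [h3]
      linarith
    have hR : ∑ i ∈ Finset.range (16 * L), (1 : ℝ) / (16 * (L : ℝ) + 1 - ((i : ℝ) + 1)) =
        ∑ i ∈ Finset.range (16 * L), (1 : ℝ) / ((i : ℝ) + 1) := by
      rw [← Finset.sum_range_reflect (fun i : ℕ => (1 : ℝ) / ((i : ℝ) + 1)) (16 * L)]
      refine Finset.sum_congr rfl fun i hi => ?_
      rw [Finset.mem_range] at hi
      have h4 : 16 * L - 1 - i + (i + 1) = 16 * L := by omega
      have h5 : ((16 * L - 1 - i : ℕ) : ℝ) + ((i : ℝ) + 1) = 16 * (L : ℝ) := by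
        exact_mod_cast h4
      have h6 : ((16 * L - 1 - i : ℕ) : ℝ) + 1 = 16 * (L : ℝ) + 1 - ((i : ℝ) + 1) := by linarith
      rw [h6]
    rw [Finset.sum_range_succ']
    have h7 : ww L 0 = 1 := by simp [ww]
    have h8 : ∑ i ∈ Finset.range (16 * L), ww L (i + 1) =
        ∑ i ∈ Finset.range (16 * L), ((1 : ℝ) / ((i : ℝ) + 1) +
          1 / (16 * (L : ℝ) + 1 - ((i : ℝ) + 1))) := by
      refine Finset.sum_congr rfl fun i _ => ?_
      unfold ww
      rw [if_neg (Nat.succ_ne_zero i)]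
      push_cast
      rfl
    rw [h7, h8, Finset.sum_add_distrib, hR]
    unfold LG
    linarith

end Pool.Agent.H37.KS2
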